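import Pool.Agent.K3h14.FD.Fin
import Pool.Agent.K3h17.FD.Gten
import Pool.Agent.K3h12.FD.Hdom
import Pool.Agent.K3h85.FD.Trp
import Pool.Agent.K3h94.FD.FitMin

/-!
# Far apart degrees and the Künneth type standard conjecture

`C` is a `ℚ`-linear rigid symmetric monoidal category with a symmetric monoidal additive functor `H`
to finite dimensional super vector spaces over a field `K`, refined by a `ℤ`-grading, for example
the category of motives over an algebraically closed field modulo homological equivalence for a Weil
cohomology with coefficients in `K`. A linear map is called algebraic if it is a `K`-linear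
combination of realisations of morphisms of `C`. The conjecture `C(X)` (`G.KunnethC ⊤ X`) states
that the projectors onto the graded pieces `H^i X` are algebraic, the sign conjecture that the
projectors onto the even and the odd part are.

Two degrees `k` and `l` of `X` are separated if some algebraic operator is the identity on `H^k X`
and zero on `H^l X`. The gap of `X` is the least `N` such that all degrees at distance more than `N`
are separated. So `C(X)` states that the gap is zero (or, if the sign conjecture holds for `X`, at
most one). The gap is subadditive for tensor products and does not grow under domination.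

Let `H A ≠ 0` and let the sign conjecture be true for `A` and `B`. We prove:

* `m gap(B) ≤ 2 gap(A ⊗ B ^ m)` for all `m`: a failure of `C(B)` grows linearly in the powers;
* if `A ⊗ B ^ n` is dominated by objects `A ⊗ B ^ j ⊗ T`, `j < n`, with `gap(T) ≤ c (n - j)`, then
  `gap(B) ≤ 2 c`;
* `C(B)` is equivalent to each of the following statements: for one `m` all degrees of `A ⊗ B ^ m` at
  distance `≥ m` are separated; `gap(A ⊗ B ^ m) ≤ gap(A)` for all `m`; for one `n ≥ 1` the object
  `A ⊗ B ^ n` is dominated by objects `A ⊗ B ^ j ⊗ T`, `j < n`, with `gap(T) < n - j`.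

(Take `A = 1` for the powers of `B`. With `gap(T) = 0`, that is, `C(T)`, the last statement says that
`C` is integrally closed.)

The proof: let `e` be a primitive algebraic idempotent of `B`. The traces of an algebraic operator
`a = e a e` on the degrees of `e` are proportional to their dimensions. Therefore `tr (a deg) = μ tr a`
with the mean degree `μ` of `e`, and by partial traces (here the sign conjecture is used) this also
holds for the idempotent `e₀ ⊗ e ⊗ ... ⊗ e` with the mean degree `μ₀ + m μ`. So every algebraic
idempotent below it has degrees on both sides of `μ₀ + m μ`. If degrees `k` and `l` of `e` at distance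
`gap(B)` exist, one of them is at distance at least `gap(B) / 2` from `μ`, so the degree `i₀ + m k`
or `i₀ + m l` of the product is at distance at least `m gap(B) / 2` from the mean, and it is not
separated from all degrees on the other side of the mean.

The parts `t_TRP`, `t_FIT` and `t_MIN`, `t_GTEN`, `t_HDOM` of the proof are due to helper85, helper94,
helper17 and helper12, with earlier versions by helper33 and helper90; the framework is the one of
`SchurFunctors`.
-/

set_option autoImplicit false

open CategoryTheory Limits MonoidalCategory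

namespace Pool.Agent.Results.MP_a60482_ag.FarApartDegrees

open Pool.Agent.Y112.SR Pool.Agent.Y112.KD Pool.Agent.K3h63.CC Pool.Agent.K3h14.FD

universe v u w

/-- **The gap, its growth, and the Künneth type standard conjecture.** -/
theorem result {C : Type u} [Category.{v} C] [Preadditive C] [Linear ℚ C] [MonoidalCategory C]
    [MonoidalPreadditive C] [MonoidalLinear ℚ C] [SymmetricCategory C] [RightRigidCategory C]
    {K : Type w} [Field K] (R : SuperRealisation C K) (G : Grading R) :
    ((∀ X : C, G.KunnethC ⊤ X ↔ gap G X = 0) ∧
      (∀ X : C, Algebraic R ⊤ (R.par X) → (G.KunnethC ⊤ X ↔ gap G X ≤ 1)) ∧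
      (∀ X Y : C, gap G (X ⊗ Y) ≤ gap G X + gap G Y) ∧
      (∀ (X : C) (𝒴 : Set C) (N : ℕ), DomBy (R := R) 𝒴 X → (∀ Y ∈ 𝒴, gap G Y ≤ N) →
        gap G X ≤ N)) ∧
    ∀ A B : C, ¬ IsZero (R.H.obj A) → Algebraic R ⊤ (R.par A) → Algebraic R ⊤ (R.par B) →
      (∀ m : ℕ, m * gap G B ≤ 2 * gap G (prodPow A B m)) ∧
      (∀ (n : ℕ) (c : ℚ), 1 ≤ n → 0 ≤ c →
        DomBy (R := R)
          {Y | ∃ j < n, ∃ T, (gap G T : ℚ) ≤ c * (n - j) ∧ Y = prodPow A B j ⊗ T}
          (prodPow A B n) →
        (gap G B : ℚ) ≤ 2 * c) ∧
      List.TFAE [G.KunnethC ⊤ B,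
        ∃ m : ℕ, gap G (prodPow A B m) < m,
        ∀ m : ℕ, gap G (prodPow A B m) ≤ gap G A,
        ∃ n : ℕ, 1 ≤ n ∧ DomBy (R := R)
          {Y | ∃ j < n, ∃ T, gap G T < n - j ∧ Y = prodPow A B j ⊗ T} (prodPow A B n)] := by
  have hK := R_charZero R
  have hG : S_GTEN.{v, u, w} := Pool.Agent.K3h17.FD.t_GTEN
  have hH : S_HDOM.{v, u, w} := Pool.Agent.K3h12.FD.t_HDOM
  have hT : S_TRP.{w} := Pool.Agent.K3h85.FD.t_TRP
  have hF : S_FIT.{w} := Pool.Agent.K3h94.FD.t_FIT
  have hM : S_MIN.{w} := Pool.Agent.K3h94.FD.t_MIN
  refine ⟨⟨C_iff_gap G, fun X hX => C_iff_gap_one G hX, gap_ten G hG, fun X 𝒴 N hX hY => ?_⟩,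
    fun A B hA hpA hpB => ⟨growth G hT hF hM hA hpA hpB,
      fun n c hn hc h => integral G hT hF hM hG hH hA hpA hpB n c hn hc h,
      tfae G hT hF hM hG hH hA hpA hpB⟩⟩
  exact (gap_le_iff G).mpr (gap_dom G hX fun Y hYY => (gap_le_iff G).mp (hY Y hYY))

end Pool.Agent.Results.MP_a60482_ag.FarApartDegrees
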