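import Pool.Agent.K3h8.MK.Main

/-!
# The Künneth standard conjecture and the eigenvalues just below the middle degree

Let `W` be a Weil cohomology theory with coefficients in `K`. Let `C` be a curve of positive genus, `P m`
the projective spaces, `X` a variety, `m ≥ dim X - 1` and `Z = X × C × P m`, `N = dim Z`. We prove that
all Künneth components of `X` are in the `K`-span of the algebraic classes if and only if the middle
one of `Z` is, if and only if the middle cohomology `H^N(Z)` differs from the cohomology `H^(N - d)(Z)`,
`1 ≤ d ≤ 2 dim X`, just below the middle, in the following sense, where `φ` is always a `K`-linear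
combination of algebraic correspondences of degree zero:

* some `φ` has no common eigenvalue on the two groups; or
* for every `y` in the first and `y'` in the second group some `φ`, which may depend on them,
  satisfies `φ y = y` and `φ y' = 0`; or
* the dual statement about the classes `y × w + y' × w'`, `w` and `w'` in the complementary degrees,
  orthogonal to all cycles of codimension `N` on `Z × Z`.

All varieties together: let `R` be a set of pairs `(N, d)` which for every `d ≥ 1` contains infinitely
many pairs `(N, d)`. For a class of varieties which with `X` contains all `X × C × P m`, the Künneth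
standard conjecture is true for all varieties in the class if and only if the middle cohomology
`H^N(Z)` differs in this way from `H^(N - d)(Z)` for all `Z` in the class, of dimension `N`, and all
`d`, `1 ≤ d ≤ N`, with `(N, d)` in `R`. (For example `R` may be the set of the `(N, d)` with `d ≤ log log N`, or with
`N` in a given infinite set.)

The same for several theories for which the traces of cycles on all `H^i` are the same rational
numbers: the theory, with coefficients in its field, may depend on `Z` and `d`, and still there are
cycles with rational coefficients which induce the Künneth projectors of all `X` for all theories at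
once.

The proof: an operator on the cohomology of `X × C × P m` which separates `H^N` and `H^(N - d)` gives, by
contraction with an algebraic class in `H^1(C) ⊗ H^1(C)` of non-zero degree on the diagonal, or with `1`
in `H^0(C)`, and with a power of the hyperplane class, operators on `H(X)` which separate `H^i` and
`H^(i - d)` for `i` of both parities. The adjoint correspondences and Tominaga's argument give the
middle Künneth component from the degrees below. For several theories one uses the trace argument
for an operator of which only the restrictions to two degrees are known.
-/

open Pool.Agent.H914 Pool.Agent.TH133.PW Pool.Agent.K3h8.MK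

universe u v

namespace Pool.Agent.Results.MP_a60482_ag.MiddleComponents

/-- **The Künneth components and the degrees below the middle.** -/
theorem result {k : Type u} [Field k] {𝒱 : VarClass k} {ops : CycleOps 𝒱} (C : 𝒱.Obj)
    (c : C.Cycles) (P : ℕ → 𝒱.Obj) (h : ∀ m, (P m).Cycles) :
    (∀ W : WeilCohomology.{u, v} ops, Factors W C c P h →
      (∀ X m, X.dim ≤ m + 1 → OneVariety W X ((X.prod C).prod (P m))) ∧
      ∀ 𝒞 R, ClosedUnder C P 𝒞 → InfinitelyOften R → AllVarieties W 𝒞 R) ∧
    ∀ 𝒲 : Set (WeilCohomology.{u, v} ops), 𝒲.Nonempty → (∀ W ∈ 𝒲, Factors W C c P h) →
      (∀ X m, SameTracesAll 𝒲 X → X.dim ≤ m + 1 →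
        OneVarietyAll 𝒲 X ((X.prod C).prod (P m))) ∧
      ∀ 𝒞 R, ClosedUnder C P 𝒞 → (∀ X, 𝒞 X → SameTracesAll 𝒲 X) → InfinitelyOften R →
        AllVarietiesAll 𝒲 𝒞 R :=
  ⟨fun _ hF => ⟨fun _ _ hm => oneVariety hF hm, fun _ _ h𝒞 hR => allVarieties hF h𝒞 hR⟩,
    fun _ hne hF => ⟨fun _ _ h𝒲 hm => oneVarietyAll hne hF h𝒲 hm,
      fun _ _ h𝒞 h𝒲 hR => allVarietiesAll hne hF h𝒞 h𝒲 hR⟩⟩

end Pool.Agent.Results.MP_a60482_ag.MiddleComponents
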