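import Pool.Agent.K3h15.LD.One

/-!
# One Künneth component of a power

`C` is a `ℚ`-linear rigid symmetric monoidal category with a symmetric monoidal additive functor `H`
to finite dimensional super vector spaces over a field `K`, refined by a `ℤ`-grading, for example
the category of motives over an algebraically closed field modulo homological equivalence for a Weil
cohomology with coefficients in `K`. `L` is a subfield of `K`. A linear map is called algebraic if it
is an `L`-linear combination of realisations of morphisms of `C`. The projector onto `H^i X` is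
`G.pr X i`; the conjecture `C(X)` (`G.KunnethC L X`) states that all of them are algebraic. `X ^ n`
is `tp X n`, and `betti G X i` is the dimension of `H^i X`.

Let `X` have the Betti numbers of a connected smooth projective variety of dimension `d`
(`IsLefschetz`): `b_0 = 1`, `b_(2 d - i) = b_i`, `b_(i - 2) ≤ b_i` for `i ≤ d`. Let `n ≥ 4`. The
Künneth projector `π^j` of `X ^ n` is a sum of products of the projectors `π^i` of `X`, for the
degrees `i ≤ j` such that `j - i` is even or `X` has an odd degree `≤ j - i` (`Occurs`). We prove:

* for `j ≤ (n - 1) d`, the projector `π^j` of `X ^ n` is algebraic if and only if the projectors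
  `π^i` of `X` which occur in it are;
* with transposition (`HasTransposition`): for each even `j`, `2 d ≤ j ≤ 2 (n - 1) d`, `j ≠ n d`, the
  conjecture `C(X)` is true if and only if the single projector `π^j` of `X ^ n` is algebraic; the
  same for each odd `j` in this range with distance at least `o` from the ends of the range, where
  `o` is an odd degree of `X`; the same for `d - 1 ≤ j ≤ (n - 1) d`, if all projectors `π^i` of `X`
  with `i ≤ j` occur in `π^j`;
* for the middle degree `j = n d` (even, or if `X` has an odd degree): if `π^(n d)` of `X ^ n` is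
  algebraic, then `π^i + π^(2 d - i)` is algebraic for all `i`, in particular `π^d`;
* for a class of varieties which is closed under powers one projector for each variety is enough: let
  `g : ℕ → ℕ` be a function such that `g m` is even and not `m`, for large `m`, and `g m` and
  `2 m - g m` tend to infinity. Then `C(Z)` is true for all `Z` in the class if and only if for all
  `Z` in the class the projector `π^j` of `Z` of degree `j = g (dim Z)` is algebraic.

The proof: the partial trace over `n - 1` factors of the `j`-th projector of `X ^ n` is
`∑ (-1) ^ (j - i) b_(j - i)(X ^ (n - 1)) π^i_X`, and this is algebraic. Its eigenvalues are compared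
in `Seq.lean`: for `N ≥ 3` the Betti numbers of `X ^ N` are symmetric and, in each parity, strictly
increasing up to the middle degree `N d`, from the first non-zero one on. The signs separate the two
parities. So the operator separates all degrees `i`, `i'` of `X` but those with
`i + i' = 2 (j - (n - 1) d)`, and the transposed one separates these, unless `j = n d`.

The framework is the one of `SchurFunctors` and `FarApartDegrees`.
-/

set_option autoImplicit false

open CategoryTheory Limits MonoidalCategory Filter

namespace Pool.Agent.Results.MP_a60482_ag.OneComponent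

open Pool.Agent.Y112.SR Pool.Agent.Y112.KD Pool.Agent.Y112.SC Pool.Agent.K3h63.CC
open Pool.Agent.K3h15.LD

universe v u w

/-- **One component of a power and the Künneth type standard conjecture.** -/
theorem result {C : Type u} [Category.{v} C] [Preadditive C] [Linear ℚ C] [MonoidalCategory C]
    [MonoidalPreadditive C] [MonoidalLinear ℚ C] [SymmetricCategory C] [RightRigidCategory C]
    {K : Type w} [Field K] (R : SuperRealisation C K) (G : Grading R) (L : Subfield K) :
    (∀ (X : C) (d : ℕ), IsLefschetz G X d → ∀ n : ℕ, 4 ≤ n →
      (∀ j : ℕ, j + d ≤ n * d →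
        (Algebraic R L (G.pr (tp X n) j) ↔
          ∀ i : ℤ, Occurs G X j i → Algebraic R L (G.pr X i))) ∧
      ((Even (n * d) ∨ ∃ o : ℤ, Odd o ∧ G.pr X o ≠ 0) →
        Algebraic R L (G.pr (tp X n) ((n * d : ℕ) : ℤ)) →
          ∀ i : ℤ, Algebraic R L (G.pr X i + G.pr X (2 * d - i))) ∧
      (HasTransposition G L X d →
        (∀ j : ℕ, 2 * d ≤ j → j + 2 * d ≤ 2 * (n * d) → j ≠ n * d →
          (Even j ∨ ∃ o : ℤ, Odd o ∧ G.pr X o ≠ 0 ∧ 2 * d + o ≤ j ∧
            j + 2 * d + o ≤ 2 * (n * d)) →
          (G.KunnethC L X ↔ Algebraic R L (G.pr (tp X n) j))) ∧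
        ∀ j : ℕ, d ≤ j + 1 → j + d ≤ n * d →
          (∀ i : ℤ, i ≤ j → G.pr X i ≠ 0 → Occurs G X j i) →
          (G.KunnethC L X ↔ Algebraic R L (G.pr (tp X n) j)))) ∧
    ∀ (𝒱 : Set C) (d : C → ℕ), IsLefschetzClass G L 𝒱 d → ∀ g : ℕ → ℕ,
      (∀ᶠ m in atTop, Even (g m) ∧ g m ≠ m) → Tendsto g atTop atTop →
      Tendsto (fun m => 2 * m - g m) atTop atTop →
        ((∀ Z ∈ 𝒱, Algebraic R L (G.pr Z (g (d Z)))) ↔ ∀ Z ∈ 𝒱, G.KunnethC L Z) := by
  have hK := R_charZero R
  refine ⟨fun X d hX n hn => ⟨fun j hj => below_iff G hX hn hj, fun hev h => middle G hX hn hev h,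
    fun hτ => ⟨fun j h1 h2 h3 hev => one G hX hτ hn h1 h2 h3 hev,
      fun j hd hj hc => below_full G hX hτ hn hj hc hd⟩⟩,
    fun 𝒱 d hV g hg hg1 hg2 => class_one G hV hg hg1 hg2⟩

end Pool.Agent.Results.MP_a60482_ag.OneComponent
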