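import Pool.Agent.K3h63.CC.FinalN

/-!
# The Künneth type standard conjecture for Schur functors of motives

`C` is a `ℚ`-linear rigid symmetric monoidal category with a symmetric monoidal additive functor to
finite dimensional super vector spaces over a field `K`, refined by a `ℤ`-grading, for example the
category of motives over an algebraically closed field modulo homological equivalence for a Weil
cohomology with coefficients in `K`. For an object `X` the conjecture `KunnethC L X` states that the
projectors onto the graded pieces `H^i X` are linear combinations, with coefficients in the subfield
`L` of `K`, of realisations of endomorphisms of `X`.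

Let `M`, `N` be objects and `P` a direct summand of `M ^ n ⊗ N` cut out by an idempotent of the
algebra generated by the permutations of the factors `M` and by the endomorphisms of `N`. If the
conjecture holds for `N` (for instance `N = 1`: then `P` is a Schur functor of `M`), it holds for
`P` if and only if it holds for `M` or the total degree in the factors `M` is constant on the
realisation of `P` (for `N = 1`: the realisation of `P` is concentrated in one degree). Without
hypothesis on `N`, the conjecture for `P` implies this alternative. The exception does not occur if
the realisation of `P` is not zero and `M` has cohomology in even and in odd degrees.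
-/

set_option autoImplicit false

open CategoryTheory Limits MonoidalCategory

namespace Pool.Agent.Results.MP_a60482_ag.SchurFunctors

open Pool.Agent.Y112.SR Pool.Agent.Y112.KD Pool.Agent.K3h63.CC

universe v u w

theorem result {C : Type u} [Category.{v} C] [Preadditive C] [Linear ℚ C] [MonoidalCategory C]
    [MonoidalPreadditive C] [MonoidalLinear ℚ C] [SymmetricCategory C] [RightRigidCategory C]
    {K : Type w} [Field K] (R : SuperRealisation C K) (G : Grading R) (L : Subfield K)
    (M N P : C) (n : ℕ) (i : P ⟶ tp M n ⊗ N) (r : tp M n ⊗ N ⟶ P) (h : IsTwistedSchur i r) :
    (G.KunnethC L P → G.KunnethC L M ∨ G.ConstantDegree i) ∧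
    (G.KunnethC L N → (G.KunnethC L P ↔ G.KunnethC L M ∨ G.ConstantDegree i)) ∧
    (1 ≤ n → ¬ IsZero (R.H.obj P) → G.Mixed M → ¬ G.ConstantDegree i) := by
  have hK := R_charZero R
  exact twisted G i r h

end Pool.Agent.Results.MP_a60482_ag.SchurFunctors
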